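import Pool.Agent.H32.TopeMag

set_option autoImplicit false

namespace Pool.Agent.Results.MP_04f01b_co.Product

open Pool.Agent.H32.TopeMag Matrix Finset

def A : Fin 5 → Fin 4 → ℝ := ![![1, 0, 0, 0], ![0, 1, 0, 0], ![0, 0, 1, 0], ![1, 1, 1, 0], ![0, 0, 0, 1]]

def S : Finset (Fin 5 → Bool) := univ.filter fun e => ¬ (e 0 = e 1 ∧ e 1 = e 2 ∧ e 2 ≠ e 3)

def t (e : Fin 5 → Bool) : Bool :=
  (e 0).toNat + (e 1).toNat + (e 2).toNat + (!e 3).toNat == 2

def tab (s b : Bool) (j : ℕ) : ℕ :=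
  (if s then (if b then [1, 1, 4, 4, 1, 1] else [0, 4, 4, 4, 4, 0])
   else (if b then [0, 3, 3, 3, 3, 0] else [1, 1, 6, 6, 1, 1])).getD j 0

lemma hS (e : Fin 5 → Bool) : e ∈ S ↔ (cell A e).Nonempty := by
  simp only [S, mem_filter, mem_univ, true_and]
  constructor
  · intro h
    refine ⟨![(if e 0 then 1 else -1) * (if e 0 = e 3 then 3 else 1), (if e 1 then 1 else -1) * (if e 1 = e 3 then 3 else 1), (if e 2 then 1 else -1) * (if e 2 = e 3 then 3 else 1), if e 4 then 1 else -1], fun i => ?_⟩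
    cases h0 : e 0 <;> cases h1 : e 1 <;> cases h2 : e 2 <;> cases h3 : e 3 <;> cases h4 : e 4 <;> simp only [h0, h1, h2, h3, h4] at h <;>
      first
        | exact absurd h (by decide)
        | (fin_cases i <;> simp [A, h0, h1, h2, h3, h4, Fin.sum_univ_succ, dotProduct] <;> norm_num)
  · rintro ⟨x, hx⟩ ⟨h1, h2, h3⟩
    have a0 := hx 0
    have a1 := hx 1
    have a2 := hx 2
    have a3 := hx 3
    cases h : e 3 <;> simp [h] at h3 <;>
      simp [A, h, h1, h2, h3, Fin.sum_univ_succ, dotProduct] at a0 a1 a2 a3 <;> linarith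

lemma arr : IsArr A := by
  refine ⟨fun i h => ?_, fun i j h => ?_⟩
  · fin_cases i <;> simp [A, funext_iff, Fin.forall_fin_succ] at h
  · by_contra hij
    have h1 : ∀ x, A i ⬝ᵥ x = 0 ↔ A j ⬝ᵥ x = 0 := fun x => by
      rw [← mem_hyp, ← mem_hyp]; exact iff_of_eq (congrArg (x ∈ ·) h)
    have h2 := fun k => h1 (Pi.single k 1)
    fin_cases i <;> fin_cases j <;> simp [A, Fin.forall_fin_succ] at hij h2

lemma rk : arank A = 4 := by
  have : (⨅ i, hyp (A i) : Submodule ℝ (Fin 4 → ℝ)) = ⊥ := by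
    rw [eq_bot_iff]
    intro x hx
    simp only [Submodule.mem_iInf, mem_hyp, Fin.forall_fin_succ] at hx
    simp [A, Fin.sum_univ_succ, dotProduct] at hx
    ext i
    fin_cases i <;> simp <;> tauto
  rw [arank, this, finrank_bot]

lemma cnt : ∀ e ∈ S, ∀ j ∈ range 6, ∀ b : Bool,
    (∑ f ∈ S, if ham e f = j ∧ t f = b then 1 else 0 : ℕ) = tab (t e) b j := by
  decide +kernel

open Polynomial in
noncomputable def num (b : Bool) : ℚ[X] := if b then (1 - X) ^ 2 else 1 - X + X ^ 2

open Polynomial in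
lemma mg : mag A = algebraMap _ (RatFunc ℚ) (∑ f ∈ S, num (t f)) / algebraMap _ (RatFunc ℚ)
    ((1 + X ^ 4) * (1 + X) ^ 3 : ℚ[X]) := by
  have hne : algebraMap _ (RatFunc ℚ) ((1 + X ^ 4) * (1 + X) ^ 3 : ℚ[X]) ≠ 0 := by
    rw [Ne, map_eq_zero_iff _ (IsFractionRing.injective _ _)]
    intro h
    simpa using congrArg (Polynomial.eval 0) h
  rw [map_sum, sum_div]
  refine mag_eq A S hS _ fun e he => ?_
  simp only [← mul_div_assoc]
  rw [← sum_div, div_eq_one_iff_eq hne, sum_group S t e 6 (by revert e; decide +kernel) _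
    (fun b => algebraMap _ (RatFunc ℚ) (num b)),
    sum_congr rfl fun j hj => sum_congr rfl fun b _ => by rw [cnt e he j hj b]]
  cases t e <;> simp [sum_range_succ, tab, num] <;> ring

/-- An arrangement of even rank at least 4 whose tope graph is not vertex-transitive although the
cyclotomic polynomial does not divide the denominator of the magnitude. -/
theorem result : ∃ (n d : ℕ) (a : Fin n → Fin d → ℝ), IsArr a ∧ Even (arank a) ∧ 4 ≤ arank a ∧
    ¬ VT (tope a) ∧ ¬ Polynomial.cyclotomic n ℚ ∣ (mag a).denom := by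
  refine ⟨5, 4, A, arr, by rw [rk]; decide, by rw [rk],
    not_VT A S hS (e := ![true, true, true, true, true]) (f := ![true, true, false, true, true]) (by decide +kernel) (by decide +kernel)
      (by decide +kernel), ?_⟩
  rw [mg]
  exact not_dvd _ _ (by decide) (by decide) _

end Pool.Agent.Results.MP_04f01b_co.Product
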